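import Pool.Agent.Helper91.GU.StB

/-!
# Project GU, module B0: formal properties of `HId` and `Elem`
-/

set_option autoImplicit false
set_option linter.unusedSectionVars false

namespace Pool.Agent.Helper67.GU

open Polynomial
open Pool.Agent.Helper91.GU

universe u

section

variable {A B : Type u} [CommRing A] [CommRing B] {n : Type} [Fintype n] [DecidableEq n]

theorem map_eval_mul (a : A) (P Q : Matrix n n A[X]) :
    (P * Q).map (eval a) = P.map (eval a) * Q.map (eval a) := by
  have := Matrix.map_mul (L := P) (M := Q) (f := evalRingHom a)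
  simpa [coe_evalRingHom] using this

theorem map_eval_one (a : A) : (1 : Matrix n n A[X]).map (eval a) = 1 := by
  simp

theorem map_eval_C (a : A) (g : Matrix n n A) : (g.map C).map (eval a) = g := by
  ext i j
  simp

theorem det_map_eval (a : A) (P : Matrix n n A[X]) : (P.map (eval a)).det = eval a P.det := by
  have := (evalRingHom a).map_det P
  rw [RingHom.mapMatrix_apply, coe_evalRingHom] at this
  exact this.symm

theorem hid_mul {M N : Matrix n n A} (hM : HId M) (hN : HId N) : HId (M * N) := by
  obtain ⟨P, hP, hP0, hP1⟩ := hM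
  obtain ⟨Q, hQ, hQ0, hQ1⟩ := hN
  refine ⟨P * Q, ?_, ?_, ?_⟩
  · rw [Matrix.det_mul]; exact hP.mul hQ
  · rw [map_eval_mul, hP0, hQ0, one_mul]
  · rw [map_eval_mul, hP1, hQ1]

theorem hid_one : HId (1 : Matrix n n A) :=
  ⟨1, by rw [Matrix.det_one]; exact isUnit_one, map_eval_one 0, map_eval_one 1⟩

theorem hid_det {M : Matrix n n A} (hM : HId M) : IsUnit M.det := by
  obtain ⟨P, hP, -, hP1⟩ := hM
  rw [← hP1, det_map_eval]
  exact hP.map (evalRingHom 1)

theorem hid_inv {M : Matrix n n A} (hM : HId M) : HId M⁻¹ := by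
  obtain ⟨P, hP, hP0, hP1⟩ := hM
  refine ⟨P⁻¹, ?_, ?_, ?_⟩
  · exact (Matrix.isUnit_nonsing_inv_det_iff).2 hP
  · have h : P.map (eval 0) * P⁻¹.map (eval 0) = 1 := by
      rw [← map_eval_mul, Matrix.mul_nonsing_inv P hP, map_eval_one]
    rwa [hP0, one_mul] at h
  · have h : P.map (eval 1) * P⁻¹.map (eval 1) = 1 := by
      rw [← map_eval_mul, Matrix.mul_nonsing_inv P hP, map_eval_one]
    rw [hP1] at h
    exact (Matrix.inv_eq_right_inv h).symm

theorem hid_conj {M g h : Matrix n n A} (hM : HId M) (hg : g * h = 1) : HId (g * M * h) := by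
  obtain ⟨P, hP, hP0, hP1⟩ := hM
  have hgh : (g.map C) * (h.map C) = (1 : Matrix n n A[X]) := by
    have := Matrix.map_mul (L := g) (M := h) (f := (C : A →+* A[X]))
    rw [hg, Matrix.map_one _ (map_zero _) (map_one _)] at this
    exact this.symm
  have hd : (g.map C).det * (h.map C).det = (1 : A[X]) := by
    rw [← Matrix.det_mul, hgh, Matrix.det_one]
  refine ⟨g.map C * P * h.map C, ?_, ?_, ?_⟩
  · rw [Matrix.det_mul, Matrix.det_mul]
    have : (g.map C).det * P.det * (h.map C).det = P.det := by
      linear_combination P.det * hd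
    rw [this]
    exact hP
  · rw [map_eval_mul, map_eval_mul, map_eval_C, map_eval_C, hP0, mul_one, hg]
  · rw [map_eval_mul, map_eval_mul, map_eval_C, map_eval_C, hP1]

theorem hid_map (φ : A →+* B) {M : Matrix n n A} (hM : HId M) : HId (M.map φ) := by
  obtain ⟨P, hP, hP0, hP1⟩ := hM
  have key : ∀ a : A, (P.map (mapRingHom φ)).map (eval (φ a)) = (P.map (eval a)).map φ := by
    intro a
    ext i j
    simp [eval_map, eval₂_at_apply]
  refine ⟨P.map (mapRingHom φ), ?_, ?_, ?_⟩
  · have := (mapRingHom φ).map_det P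
    rw [RingHom.mapMatrix_apply] at this
    rw [← this]
    exact hP.map (mapRingHom φ)
  · have := key 0
    rw [map_zero] at this
    rw [this, hP0, Matrix.map_one _ (map_zero _) (map_one _)]
  · have := key 1
    rw [map_one] at this
    rw [this, hP1]

theorem trans_mem {i j : n} (h : i ≠ j) (c : A) : Matrix.transvection i j c ∈ Elem n A :=
  Submonoid.subset_closure ⟨i, j, c, h, rfl⟩

theorem trans_map (φ : A →+* B) (i j : n) (c : A) :
    (Matrix.transvection i j c).map φ = Matrix.transvection i j (φ c) := by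
  unfold Matrix.transvection
  rw [Matrix.map_add _ (fun a b => map_add φ a b), Matrix.map_one _ (map_zero _) (map_one _)]
  congr 1
  ext a b
  rw [Matrix.map_apply, Matrix.single_apply, Matrix.single_apply]
  split_ifs <;> simp

theorem trans_hid {i j : n} (h : i ≠ j) (c : A) : HId (Matrix.transvection i j c) := by
  have key : ∀ a : A, (Matrix.transvection i j (C c * X : A[X])).map (eval a) =
      Matrix.transvection i j (c * a) := by
    intro a
    have := trans_map (evalRingHom a) i j (C c * X : A[X])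
    rw [coe_evalRingHom] at this
    rw [this]
    simp
  refine ⟨Matrix.transvection i j (C c * X), ?_, ?_, ?_⟩
  · rw [Matrix.det_transvection_of_ne _ _ h]; exact isUnit_one
  · rw [key, mul_zero, Matrix.transvection_zero]
  · rw [key, mul_one]

theorem trans_inv {i j : n} (h : i ≠ j) (c : A) :
    (Matrix.transvection i j c)⁻¹ = Matrix.transvection i j (-c) := by
  apply Matrix.inv_eq_right_inv
  rw [Matrix.transvection_mul_transvection_same _ _ h, add_neg_cancel, Matrix.transvection_zero]

theorem trans_transpose (i j : n) (c : A) :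
    (Matrix.transvection i j c).transpose = Matrix.transvection j i c := by
  unfold Matrix.transvection
  rw [Matrix.transpose_add, Matrix.transpose_one, Matrix.transpose_single]

theorem elem_all (φ : A →+* B) {M : Matrix n n A} (hM : M ∈ Elem n A) :
    HId M ∧ M.det = 1 ∧ M⁻¹ ∈ Elem n A ∧ M.transpose ∈ Elem n A ∧ M.map φ ∈ Elem n B := by
  unfold Elem at hM
  induction hM using Submonoid.closure_induction with
  | mem x hx =>
    obtain ⟨i, j, c, hij, rfl⟩ := hx
    refine ⟨trans_hid hij c, Matrix.det_transvection_of_ne _ _ hij _, ?_, ?_, ?_⟩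
    · rw [trans_inv hij]; exact trans_mem hij _
    · rw [trans_transpose]; exact trans_mem hij.symm _
    · rw [trans_map]; exact trans_mem hij _
  | one =>
    refine ⟨hid_one, Matrix.det_one, ?_, ?_, ?_⟩
    · rw [inv_one]; exact one_mem _
    · rw [Matrix.transpose_one]; exact one_mem _
    · rw [Matrix.map_one _ (map_zero _) (map_one _)]; exact one_mem _
  | mul x y _ _ hx hy =>
    refine ⟨hid_mul hx.1 hy.1, ?_, ?_, ?_, ?_⟩
    · rw [Matrix.det_mul, hx.2.1, hy.2.1, one_mul]
    · rw [Matrix.mul_inv_rev]; exact mul_mem hy.2.2.1 hx.2.2.1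
    · rw [Matrix.transpose_mul]; exact mul_mem hy.2.2.2.1 hx.2.2.2.1
    · rw [Matrix.map_mul]; exact mul_mem hx.2.2.2.2 hy.2.2.2.2

theorem elem_lift (φ : A →+* B) (hφ : Function.Surjective φ) {M : Matrix n n B}
    (hM : M ∈ Elem n B) : ∃ M' ∈ Elem n A, M'.map φ = M := by
  unfold Elem at hM
  induction hM using Submonoid.closure_induction with
  | mem x hx =>
    obtain ⟨i, j, c, hij, rfl⟩ := hx
    obtain ⟨c', rfl⟩ := hφ c
    exact ⟨Matrix.transvection i j c', trans_mem hij c', trans_map φ i j c'⟩
  | one => exact ⟨1, one_mem _, Matrix.map_one _ (map_zero _) (map_one _)⟩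
  | mul x y _ _ hx hy =>
    obtain ⟨x', hx', rfl⟩ := hx
    obtain ⟨y', hy', rfl⟩ := hy
    exact ⟨x' * y', mul_mem hx' hy', Matrix.map_mul⟩

end

theorem hB0 : StB0.{u} := by
  intro A B _ _ φ n _ _
  refine ⟨fun M N => hid_mul, hid_one, fun M hM => ⟨hid_det hM, hid_inv hM⟩, ?_,
    fun M hM => hid_map φ hM, fun M hM => elem_all φ hM, fun hφ M hM => elem_lift φ hφ hM⟩
  intro M g hM hg
  exact ⟨hid_conj hM (Matrix.mul_nonsing_inv g hg), hid_conj hM (Matrix.nonsing_inv_mul g hg)⟩

end Pool.Agent.Helper67.GU
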