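import Pool.Agent.Helper91.GU.StE
import Pool.Agent.Helper91.GU.StD

/-!
# Project GU, module EB: transitivity of the elementary group in the stable range (Bass)
-/

set_option autoImplicit false
set_option linter.unusedSectionVars false

namespace Pool.Agent.Helper67.GU

open Pool.Agent.Helper91.GU

universe u

section elementary

variable {B : Type u} [CommRing B] {n : Type} [Fintype n] [DecidableEq n]

theorem eeq_refl (v : n → B) : EEq v v := ⟨1, one_mem _, Matrix.vecMul_one v⟩

theorem eeq_trans {v w x : n → B} (h1 : EEq v w) (h2 : EEq w x) : EEq v x := by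
  obtain ⟨e, he, rfl⟩ := h1
  obtain ⟨f, hf, rfl⟩ := h2
  exact ⟨e * f, mul_mem he hf, (Matrix.vecMul_vecMul v e f).symm⟩

theorem eeq_add {i j : n} (hij : i ≠ j) (v : n → B) (c : B) :
    EEq v (Function.update v j (v j + v i * c)) := by
  refine ⟨Matrix.transvection i j c, Submonoid.subset_closure ⟨i, j, c, hij, rfl⟩, ?_⟩
  unfold Matrix.transvection
  rw [Matrix.vecMul_add, Matrix.vecMul_one]
  ext k
  rw [Pi.add_apply, Matrix.vecMul, dotProduct, Finset.sum_eq_single i]
  · by_cases hk : k = j
    · subst hk
      rw [Function.update_self, Matrix.single_apply_same]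
    · rw [Function.update_of_ne hk, Matrix.single_apply_of_ne, mul_zero, add_zero]
      exact fun h => hk h.2.symm
  · intro b _ hb
    rw [Matrix.single_apply_of_ne, mul_zero]
    exact fun h => hb h.1.symm
  · intro h
    exact absurd (Finset.mem_univ i) h

/-- one source, many targets -/
theorem eeq_out (v : n → B) (i : n) (c : n → B) (s : Finset n) (hs : i ∉ s) :
    EEq v (fun j => if j ∈ s then v j + v i * c j else v j) := by
  classical
  induction s using Finset.induction_on with
  | empty => simpa using eeq_refl v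
  | insert a s ha ih =>
    rw [Finset.mem_insert, not_or] at hs
    have h1 := ih hs.2
    have h2 := eeq_add hs.1 (fun j => if j ∈ s then v j + v i * c j else v j) (c a)
    have h3 := eeq_trans h1 h2
    convert h3 using 1
    ext j
    by_cases hj : j = a
    · subst hj
      simp [ha, hs.2]
    · rw [Function.update_of_ne hj]
      simp [hj]

/-- many sources, one target -/
theorem eeq_in (v : n → B) (j : n) (c : n → B) (s : Finset n) (hs : j ∉ s) :
    EEq v (Function.update v j (v j + ∑ i ∈ s, v i * c i)) := by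
  classical
  induction s using Finset.induction_on with
  | empty => simpa using eeq_refl v
  | insert a s ha ih =>
    rw [Finset.mem_insert, not_or] at hs
    have h1 := ih hs.2
    have h2 := eeq_add (Ne.symm hs.1) (Function.update v j (v j + ∑ i ∈ s, v i * c i)) (c a)
    have h3 := eeq_trans h1 h2
    convert h3 using 1
    rw [Finset.sum_insert ha, Function.update_idem, Function.update_self,
      Function.update_of_ne (Ne.symm hs.1)]
    congr 1
    ring

end elementary

section heights

variable {B : Type u} [CommRing B] [IsNoetherianRing B]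

/-- avoiding finitely many pairwise incomparable primes by an element of a coset -/
theorem coset_avoid (J : Ideal B) (x w : B) :
    ∃ h : B, ∀ P ∈ J.minimalPrimes, w ∉ P → x + h * w ∉ P := by
  classical
  have hfin : J.minimalPrimes.Finite := Ideal.finite_minimalPrimes_of_isNoetherianRing B J
  set M := hfin.toFinset with hM
  set S := M.filter (fun P => x ∈ P) with hS
  set T := M.filter (fun P => x ∉ P) with hT
  have hmem : ∀ P, P ∈ M ↔ P ∈ J.minimalPrimes := fun P => hfin.mem_toFinset
  have hprime : ∀ P ∈ M, P.IsPrime := fun P hP => ((hmem P).1 hP).1.1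
  have hnot : ¬ ((T.inf id : Ideal B) : Set B) ⊆ ⋃ P ∈ (↑S : Set (Ideal B)), (P : Set B) := by
    intro hsub
    have := (Ideal.subset_union_prime (s := S) (f := fun P => P) ⊤ ⊤
      (fun P hP _ _ => hprime P (Finset.mem_filter.1 hP).1) (I := T.inf id)).1 hsub
    obtain ⟨P, hP, hle⟩ := this
    rw [hS, Finset.mem_filter] at hP
    obtain ⟨Q, hQ, hQP⟩ := ((hprime P hP.1).inf_le' (s := T) (f := id)).1 hle
    rw [hT, Finset.mem_filter] at hQ
    have hQ' := (hmem Q).1 hQ.1
    have hP' := (hmem P).1 hP.1
    have : P ≤ Q := hP'.2 hQ'.1 hQP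
    exact hQ.2 (this hP.2)
  rw [Set.not_subset] at hnot
  obtain ⟨h, hh, hh'⟩ := hnot
  refine ⟨h, fun P hP hw hcon => ?_⟩
  have hPM := (hmem P).2 hP
  by_cases hx : x ∈ P
  · have h1 : h ∉ P := by
      intro hhP
      apply hh'
      simp only [Set.mem_iUnion]
      exact ⟨P, by rw [Finset.mem_coe, hS, Finset.mem_filter]; exact ⟨hPM, hx⟩, hhP⟩
    have h2 : h * w ∈ P := by
      have := P.sub_mem hcon hx
      rwa [add_sub_cancel_left] at this
    rcases (hprime P hPM).mem_or_mem h2 with h3 | h3
    · exact h1 h3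
    · exact hw h3
  · have h1 : h ∈ P := by
      have : T.inf id ≤ P := Finset.inf_le (f := id) (by
        rw [hT, Finset.mem_filter]; exact ⟨hPM, hx⟩)
      exact this hh
    apply hx
    have := P.sub_mem hcon (P.mul_mem_right w h1)
    rwa [add_sub_cancel_right] at this

theorem heights (x : ℕ → B) (w : B) (i : ℕ) :
    ∃ h : ℕ → B, ∀ P : Ideal B, P.IsPrime → (∀ j < i, x j + h j * w ∈ P) → w ∉ P →
      (i : ℕ∞) ≤ P.height := by
  induction i with
  | zero => exact ⟨0, fun P _ _ _ => by simp⟩
  | succ i ih =>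
    obtain ⟨h, hh⟩ := ih
    set J : Ideal B := Ideal.span {y | ∃ j < i, y = x j + h j * w} with hJ
    obtain ⟨a, ha⟩ := coset_avoid J (x i) w
    refine ⟨Function.update h i a, fun P hP hgen hw => ?_⟩
    have hJP : J ≤ P := by
      rw [hJ, Ideal.span_le]
      rintro y ⟨j, hj, rfl⟩
      have := hgen j (by omega)
      rwa [Function.update_of_ne (by omega)] at this
    have _ := hP
    obtain ⟨Q, hQ, hQP⟩ := Ideal.exists_minimalPrimes_le hJP
    have hQprime : Q.IsPrime := hQ.1.1
    have hwQ : w ∉ Q := fun hc => hw (hQP hc)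
    have h1 := ha Q hQ hwQ
    have h2 : x i + a * w ∈ P := by
      have := hgen i (by omega)
      rwa [Function.update_self] at this
    have hlt : Q < P := lt_of_le_of_ne hQP (fun he => h1 (he ▸ h2))
    have h3 : (i : ℕ∞) ≤ Q.height := by
      apply hh Q hQprime _ hwQ
      intro j hj
      exact hQ.1.2 (Ideal.subset_span ⟨j, hj, rfl⟩)
    calc ((i + 1 : ℕ) : ℕ∞) = (i : ℕ∞) + 1 := by push_cast; rfl
      _ ≤ Q.height + 1 := by gcongr
      _ ≤ P.height := Ideal.height_add_one_le_of_lt_of_isPrime hlt

end heights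

theorem hEB' : StEB.{u} := by
  classical
  intro B _ _ n hdim v hv
  rcases subsingleton_or_nontrivial B with hsub | hnt
  · have : v = Pi.single 0 1 := funext fun j => Subsingleton.elim _ _
    rw [this]
    exact eeq_refl _
  have hd0 : (0 : WithBot ℕ∞) ≤ ringKrullDim B := ringKrullDim_nonneg_of_nontrivial
  have hn : 1 ≤ n := by
    have h1 : (0 : WithBot ℕ∞) + 2 ≤ ((n + 1 : ℕ) : WithBot ℕ∞) :=
      le_trans (by gcongr) hdim
    rw [zero_add] at h1
    have h2 : ((2 : ℕ) : WithBot ℕ∞) ≤ ((n + 1 : ℕ) : WithBot ℕ∞) := by exact_mod_cast h1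
    have h3 : 2 ≤ n + 1 := by exact_mod_cast h2
    omega
  set w := v (Fin.last n) with hw
  obtain ⟨h, hh⟩ := heights (fun j : ℕ => if hj : j < n then v ⟨j, by omega⟩ else 0) w n
  -- the new row
  set v1 : Fin (n + 1) → B :=
    fun j => if j ∈ (Finset.univ.erase (Fin.last n)) then v j + w * h j.val else v j with hv1
  have e1 : EEq v v1 := eeq_out v (Fin.last n) (fun j => h j.val) _ (Finset.notMem_erase _ _)
  have hlast : v1 (Fin.last n) = w := by
    rw [hv1]; simp [hw]
  have hne : ∀ j : Fin (n + 1), j ≠ Fin.last n → v1 j = v j + w * h j.val := by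
    intro j hj
    rw [hv1]; simp [hj]
  set I : Ideal B := Ideal.span (v1 '' {j | j ≠ Fin.last n}) with hI
  have hItop : I = ⊤ := by
    by_contra hIne
    obtain ⟨P, hP, hIP⟩ := Ideal.exists_le_maximal I hIne
    have _ := hP.isPrime
    have hgen : ∀ j : Fin (n + 1), j ≠ Fin.last n → v j + w * h j.val ∈ P := by
      intro j hj
      rw [← hne j hj]
      exact hIP (Ideal.subset_span ⟨j, hj, rfl⟩)
    have hwP : w ∈ P := by
      by_contra hwP
      have h1 := hh P hP.isPrime (by
        intro j hj
        simp only [dif_pos hj]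
        have := hgen ⟨j, by omega⟩ (by
          intro hc
          have := congrArg Fin.val hc
          simp at this
          omega)
        rwa [mul_comm w] at this) hwP
      have h2 : (P.height : WithBot ℕ∞) ≤ ringKrullDim B :=
        Ideal.height_le_ringKrullDim_of_ne_top hP.ne_top
      have h3 : ((n : ℕ∞) : WithBot ℕ∞) ≤ (P.height : WithBot ℕ∞) := by exact_mod_cast h1
      have h4 : ((n : ℕ) : WithBot ℕ∞) + 2 ≤ ((n + 1 : ℕ) : WithBot ℕ∞) := by
        refine le_trans ?_ hdim
        gcongr
        refine le_trans ?_ h2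
        exact_mod_cast h3
      have h5 : ((n + 2 : ℕ) : WithBot ℕ∞) ≤ ((n + 1 : ℕ) : WithBot ℕ∞) := by exact_mod_cast h4
      have h6 : n + 2 ≤ n + 1 := by exact_mod_cast h5
      omega
    have hall : ∀ j, v j ∈ P := by
      intro j
      by_cases hj : j = Fin.last n
      · rw [hj]; exact hwP
      · have := P.sub_mem (hgen j hj) (P.mul_mem_right (h j.val) hwP)
        rwa [add_sub_cancel_right] at this
    obtain ⟨y, hy⟩ := hv
    apply hP.ne_top
    rw [Ideal.eq_top_iff_one, ← hy]
    exact P.sum_mem fun j _ => P.mul_mem_right _ (hall j)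
  -- coefficients
  obtain ⟨a, ha⟩ : ∃ a : Fin (n + 1) → B,
      ∑ i ∈ Finset.univ.erase (Fin.last n), v1 i * a i = 1 := by
    have h1 : (1 : B) ∈ I := by rw [hItop]; trivial
    have h2 : I = Ideal.span (v1 '' (↑(Finset.univ.erase (Fin.last n)) : Set (Fin (n + 1)))) := by
      rw [hI]
      congr 1
      ext j
      simp
    rw [h2] at h1
    obtain ⟨c, hc⟩ := (Submodule.mem_span_image_finset_iff_exists_fun' B).1 h1
    refine ⟨c, ?_⟩
    rw [← hc]
    exact Finset.sum_congr rfl fun i _ => by rw [smul_eq_mul, mul_comm]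
  have e2 := eeq_in v1 (Fin.last n) (fun i => a i * (1 - w)) (Finset.univ.erase (Fin.last n))
    (Finset.notMem_erase _ _)
  have hsum : v1 (Fin.last n) + ∑ i ∈ Finset.univ.erase (Fin.last n), v1 i * (a i * (1 - w)) = 1 := by
    have : ∑ i ∈ Finset.univ.erase (Fin.last n), v1 i * (a i * (1 - w)) = 1 - w := by
      calc _ = (∑ i ∈ Finset.univ.erase (Fin.last n), v1 i * a i) * (1 - w) := by
            rw [Finset.sum_mul]
            exact Finset.sum_congr rfl fun i _ => by ring
        _ = 1 - w := by rw [ha, one_mul]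
    rw [this, hlast]
    ring
  rw [hsum] at e2
  set v2 := Function.update v1 (Fin.last n) 1 with hv2
  have hv2l : v2 (Fin.last n) = 1 := by rw [hv2, Function.update_self]
  have e3 := eeq_out v2 (Fin.last n) (fun j => - v2 j) (Finset.univ.erase (Fin.last n))
    (Finset.notMem_erase _ _)
  have hv3 : (fun j => if j ∈ Finset.univ.erase (Fin.last n) then v2 j + v2 (Fin.last n) * (- v2 j)
      else v2 j) = Pi.single (Fin.last n) 1 := by
    ext j
    by_cases hj : j = Fin.last n
    · subst hj
      simp [hv2l]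
    · rw [Pi.single_eq_of_ne hj]
      simp [hj, hv2l]
  rw [hv3] at e3
  have h0l : (0 : Fin (n + 1)) ≠ Fin.last n := by
    intro hc
    have := congrArg Fin.val hc
    simp at this
    omega
  have e4 := eeq_add (Ne.symm h0l) (Pi.single (Fin.last n) 1 : Fin (n + 1) → B) 1
  have e5 := eeq_add h0l (Function.update (Pi.single (Fin.last n) 1 : Fin (n + 1) → B) 0
    ((Pi.single (Fin.last n) 1 : Fin (n + 1) → B) 0 +
      (Pi.single (Fin.last n) 1 : Fin (n + 1) → B) (Fin.last n) * 1)) (-1)
  have hv5 : Function.update (Function.update (Pi.single (Fin.last n) 1 : Fin (n + 1) → B) 0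
    ((Pi.single (Fin.last n) 1 : Fin (n + 1) → B) 0 +
      (Pi.single (Fin.last n) 1 : Fin (n + 1) → B) (Fin.last n) * 1)) (Fin.last n)
      (Function.update (Pi.single (Fin.last n) 1 : Fin (n + 1) → B) 0
    ((Pi.single (Fin.last n) 1 : Fin (n + 1) → B) 0 +
      (Pi.single (Fin.last n) 1 : Fin (n + 1) → B) (Fin.last n) * 1) (Fin.last n) +
      Function.update (Pi.single (Fin.last n) 1 : Fin (n + 1) → B) 0
    ((Pi.single (Fin.last n) 1 : Fin (n + 1) → B) 0 +
      (Pi.single (Fin.last n) 1 : Fin (n + 1) → B) (Fin.last n) * 1) 0 * (-1)) =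
      Pi.single 0 1 := by
    ext j
    by_cases hj : j = Fin.last n
    · subst hj
      rw [Function.update_self, Function.update_of_ne (Ne.symm h0l), Function.update_self,
        Pi.single_eq_same, Pi.single_eq_of_ne h0l, Pi.single_eq_of_ne (Ne.symm h0l)]
      ring
    · rw [Function.update_of_ne hj]
      by_cases hj0 : j = 0
      · subst hj0
        rw [Function.update_self, Pi.single_eq_same, Pi.single_eq_of_ne h0l, Pi.single_eq_same]
        ring
      · rw [Function.update_of_ne hj0, Pi.single_eq_of_ne hj, Pi.single_eq_of_ne hj0]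
  rw [hv5] at e5
  exact eeq_trans e1 (eeq_trans e2 (eeq_trans e3 (eeq_trans e4 e5)))

theorem hEB (_hD2 : StD2.{u}) : StEB.{u} := hEB'

end Pool.Agent.Helper67.GU
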