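import Pool.Agent.Helper91.GU.StH

/-!
# Project GU, module H5: the finitely generated graded case
-/

set_option autoImplicit false

namespace Pool.Agent.Helper67.GU

open Polynomial
open Pool.Agent.Helper91.GU

universe u

theorem mp_row {A B : Type u} [CommRing A] [CommRing B] (φ : A →+* B) {r : ℕ} (a : A)
    (c : Fin r → A) : mp φ (row a c) = row (φ a) (fun j => φ (c j)) := by
  ext j
  rcases j with j | j <;> rfl

theorem core (hS : StS.{u}) (hA5 : StA5.{u}) (hB7 : StB7.{u}) (hH4 : StH4.{u})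
    (R A : Type u) [CommRing R] [IsLocalRing R] [CommRing A] [Algebra R A] [IsNoetherianRing A]
    (s : ℕ) (hs : 1 ≤ s) (hdim : ringKrullDim A ≤ (2 * s : ℕ))
    (hfac : IsUnit ((s + 1).factorial : R)) (Γ : A →+* A[X]) (π : A →+* R)
    (hΓ1 : ∀ f : A, (Γ f).eval 1 = f) (hΓ0 : ∀ f : A, (Γ f).eval 0 = algebraMap R A (π f))
    (a : A) (c : Fin (s + 1) → A) (hUm : Um (row a c)) : REq (row a c) (row 1 0) := by
  set V : Unit ⊕ Fin (s + 1) → A[X] := mp Γ (row a c) with hV
  -- the local condition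
  have hloc : ∀ (𝔪 : Ideal A) [𝔪.IsMaximal],
      REq (fun j => (V j).map (algebraMap A (Localization.AtPrime 𝔪)))
        (fun j => C (algebraMap A (Localization.AtPrime 𝔪) ((V j).eval 0))) := by
    intro 𝔪 hm
    have hL : ringKrullDim (Localization.AtPrime 𝔪) ≤ (2 * s : ℕ) := by
      rw [IsLocalization.AtPrime.ringKrullDim_eq_height 𝔪 (Localization.AtPrime 𝔪)]
      exact (Ideal.height_le_ringKrullDim_of_ne_top hm.ne_top).trans hdim
    have hNL : IsNoetherianRing (Localization.AtPrime 𝔪) :=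
      IsLocalization.isNoetherianRing 𝔪.primeCompl _ inferInstance
    have hfL : IsUnit ((s + 1).factorial : Localization.AtPrime 𝔪) := by
      have := hfac.map ((algebraMap A (Localization.AtPrime 𝔪)).comp (algebraMap R A))
      rwa [map_natCast] at this
    have key : ∀ ψ : A →+* (Localization.AtPrime 𝔪)[X], REq (mp ψ (row a c)) (row 1 0) := by
      intro ψ
      have hU := ((hB7 A _ ψ).1 (Unit ⊕ Fin (s + 1))).2.2.2.2.2.2 _ hUm
      rw [mp_row] at hU ⊢
      exact hS (Localization.AtPrime 𝔪) s hs hL hfL _ _ hU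
    have h1 := key ((mapRingHom (algebraMap A (Localization.AtPrime 𝔪))).comp Γ)
    have h2 := key ((C : Localization.AtPrime 𝔪 →+* _).comp
      ((algebraMap A (Localization.AtPrime 𝔪)).comp ((evalRingHom (0 : A)).comp Γ)))
    obtain ⟨-, hsym, htr, -⟩ := (hB7 (Localization.AtPrime 𝔪)[X] (Localization.AtPrime 𝔪)[X]
      (RingHom.id _)).1 (Unit ⊕ Fin (s + 1))
    exact htr _ _ _ h1 (hsym _ _ h2)
  have h5 := hA5 A (Unit ⊕ Fin (s + 1)) V hloc
  have h6 := ((hB7 A[X] A (evalRingHom (1 : A))).1 (Unit ⊕ Fin (s + 1))).2.2.2.2.2.1 _ _ h5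
  have e1 : mp (evalRingHom (1 : A)) V = row a c := by
    ext j
    simp only [mp, hV, coe_evalRingHom]
    rw [hΓ1]
  have e2 : mp (evalRingHom (1 : A)) (fun j => C ((V j).eval 0)) =
      mp (algebraMap R A) (row (π a) (fun j => π (c j))) := by
    funext j
    rw [← mp_row]
    simp only [mp, hV, coe_evalRingHom, eval_C]
    rw [hΓ0]
  rw [e1, e2] at h6
  have hU4 : Um (row (π a) (fun j => π (c j))) := by
    rw [← mp_row]
    exact ((hB7 A R π).1 (Unit ⊕ Fin (s + 1))).2.2.2.2.2.2 _ hUm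
  have h7 := hH4 R (s + 1) _ _ hU4
  have h8 := ((hB7 R A (algebraMap R A)).1 (Unit ⊕ Fin (s + 1))).2.2.2.2.2.1 _ _ h7
  have e3 : mp (algebraMap R A) (row (1 : R) (0 : Fin (s + 1) → R)) = row 1 0 := by
    rw [mp_row, map_one]
    congr 1
    funext j
    exact map_zero _
  rw [e3] at h8
  exact ((hB7 A A (RingHom.id _)).1 (Unit ⊕ Fin (s + 1))).2.2.1 _ _ _ h6 h8

theorem hH5 (hS : StS.{u}) (hA5 : StA5.{u}) (hB7 : StB7.{u}) (hH1 : StH1.{u}) (hH2 : StH2.{u})
    (hH4 : StH4.{u}) : StH5.{u} := by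
  intro R _ _ _ d n s hs hdR hdn hfac A hFG hGr a c hUm
  obtain ⟨Γ, π, hΓ1, hΓ0, -⟩ := hH2 R n A hGr
  have hdim : ringKrullDim A ≤ (2 * s : ℕ) := by
    refine (hH1 R d n hdR A hFG).trans ?_
    exact_mod_cast hdn
  have hNoe : IsNoetherianRing A := isNoetherianRing_of_fg hFG
  exact core hS hA5 hB7 hH4 R A s hs hdim hfac Γ π hΓ1 hΓ0 a c hUm

end Pool.Agent.Helper67.GU
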